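import Mathlib
import Pool.Agent.N47.AZ.Main

/-!
Finite `p`-groups of class two whose central automorphisms are class-preserving.
-/

set_option autoImplicit false

open scoped commutatorElement

namespace Pool.Agent.Results.MP_7393fc_al.CentralClassPreserving

open Pool.Agent.N47.AZ Pool.Agent.Helper832.AutC

/-- Let `G` be a finite `p`-group of nilpotency class exactly two. The following are equivalent:
every central automorphism is class-preserving and conversely; the centre is the commutator
subgroup and the conjugacy classes are as large as the heights allow; the centre is the commutator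
subgroup and for all `N` with cyclic `Z(G)/N` the centre of `G/N` is the set given by the condition
on powers; the centre is the commutator subgroup and for all such `N` the number of elements which
are central modulo `N` is `|G| |Hom(G, N)| / |Hom(G, Z(G))|`. If these conditions are satisfied,
then `G/Z(G)` is isomorphic to `H × H` for an abelian group `H`. -/
theorem result (p : ℕ) (hp : p.Prime) (G : Type) [Group G] [Finite G] (hG : IsPGroup p G)
    (hna : commutator G ≠ ⊥) (hcl : commutator G ≤ Subgroup.center G) :
    List.TFAE [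
      ∀ α : MulAut G, (∀ x : G, x⁻¹ * α x ∈ Subgroup.center G) ↔ ∀ x : G, IsConj x (α x),
      Subgroup.center G = commutator G ∧
        ∀ x y : G, IsConj x y ↔ (x⁻¹ * y ∈ Subgroup.center G ∧
          ∀ i j : ℕ, (∃ g : G, (g ^ p ^ i)⁻¹ * x ^ p ^ j ∈ Subgroup.center G) →
            ∃ w ∈ Subgroup.center G, (x⁻¹ * y) ^ p ^ j = w ^ p ^ i),
      Subgroup.center G = commutator G ∧
        ∀ N ≤ Subgroup.center G,
          IsCyclic (Subgroup.center G ⧸ N.subgroupOf (Subgroup.center G)) →
          ∀ x : G, (∀ g : G, ⁅x, g⁆ ∈ N) ↔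
            ∀ z ∈ Subgroup.center G, ∃ g : G,
              (g ^ orderOf z)⁻¹ * x ^ Nat.card ↥(Subgroup.zpowers z ⊓ N) ∈ Subgroup.center G,
      Subgroup.center G = commutator G ∧
        ∀ N ≤ Subgroup.center G,
          IsCyclic (Subgroup.center G ⧸ N.subgroupOf (Subgroup.center G)) →
          Nat.card {x : G // ∀ g : G, ⁅x, g⁆ ∈ N} * Nat.card (G →* Subgroup.center G) =
            Nat.card G * Nat.card (G →* N)] ∧
    ((∀ α : MulAut G, (∀ x : G, x⁻¹ * α x ∈ Subgroup.center G) → ∀ x : G, IsConj x (α x)) →
      ∃ (H : Type) (_ : CommGroup H), Nonempty (G ⧸ Subgroup.center G ≃* H × H)) := by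
  haveI : Fact p.Prime := ⟨hp⟩
  have hc : ∀ a b c : G, ⁅⁅a, b⁆, c⁆ = 1 := by
    intro a b c
    exact center_comm (hcl (comm_mem a b)) c
  have hna' : ∃ a b : G, ⁅a, b⁆ ≠ 1 := by
    by_contra hcon
    push Not at hcon
    apply hna
    rw [eq_bot_iff, commutator_def, Subgroup.commutator_le]
    intro a _ b _
    rw [hcon]
    exact one_mem _
  have h0 : (∀ α : MulAut G, (∀ x : G, x⁻¹ * α x ∈ Subgroup.center G) ↔ ∀ x : G, IsConj x (α x)) ↔
      AutZ G = AutC G := by
    constructor
    · intro h
      ext α
      exact h α
    · intro h α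
      exact (SetLike.ext_iff.mp h α)
  refine ⟨?_, fun h => quot_square hG hc hna' (le_antisymm h (autC_le_autZ hc))⟩
  tfae_have 1 ↔ 2 := by
    rw [h0]
    exact autZ_eq_iff hG hc hna'
  tfae_have 1 ↔ 3 := by
    rw [h0, autZ_ann hG hc hna']
    refine and_congr_right (fun hZ => ?_)
    constructor
    · intro h N hN hcy x
      rw [h N hN hcy x, ann_iff hG hZ]
    · intro h N hN hcy x
      rw [h N hN hcy x, ann_iff hG hZ]
  tfae_have 1 ↔ 4 := by
    rw [h0, autZ_ann hG hc hna']
    refine and_congr_right (fun _ => ?_)
    constructor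
    · intro h N hN hcy
      exact (ann_num hc N hN hcy).mp (h N hN hcy)
    · intro h N hN hcy
      exact (ann_num hc N hN hcy).mpr (h N hN hcy)
  tfae_finish

end Pool.Agent.Results.MP_7393fc_al.CentralClassPreserving
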